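import Pool.Agent.Lib.FW.SpecA

/-!
FW, Part A, module AChi (helper26): the character.
-/

open scoped Pointwise NumberField

noncomputable section

namespace Pool.Agent.FW

open Pool.Agent.MuZ

theorem tAChi (h1 : S_AZeta) : S_AChi := by
  intro K _ _ m l _ hK hlm π
  haveI : NeZero m := ⟨hK.pos.ne'⟩
  obtain ⟨ζ, hζ⟩ := hK.prim
  obtain ⟨z, hzp⟩ : ∃ z : 𝓞 K, IsPrimitiveRoot z m := ⟨hζ.toInteger, hζ.toInteger_isPrimitiveRoot⟩
  have hξ := h1 K m l π z hK.pos hlm hzp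
  have hξ0 : π z ≠ 0 := by
    intro h
    have h2 := hξ.pow_eq_one
    rw [h, zero_pow hK.pos.ne'] at h2
    exact zero_ne_one h2
  obtain ⟨k, hk⟩ : m ∣ l - 1 := hξ.dvd_of_pow_eq_one _ (ZMod.pow_card_sub_one_eq_one hξ0)
  obtain ⟨g, hg⟩ := IsCyclic.exists_generator (α := (ZMod l)ˣ)
  have hgk : (((g : ZMod l)) ^ k) ^ m = 1 := by
    rw [← pow_mul, mul_comm k m, ← hk]
    exact ZMod.pow_card_sub_one_eq_one g.ne_zero
  obtain ⟨t, -, ht⟩ := hξ.eq_pow_of_pow_eq_one hgk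
  obtain ⟨u, hu⟩ := hzp.isUnit hK.pos.ne'
  have hum : u ^ m = 1 := by
    ext
    rw [Units.val_pow_eq_pow_val, hu, hzp.pow_eq_one, Units.val_one]
  have hu1 : u ^ t ∈ rootsOfUnity (Fintype.card (ZMod l)ˣ) (𝓞 K) := by
    rw [mem_rootsOfUnity, ZMod.card_units, hk, ← pow_mul, mul_comm t, mul_assoc, pow_mul, hum, one_pow]
  have key : ∀ x : ZMod l, x ≠ 0 → ∃ i : ℕ, x = (g : ZMod l) ^ i ∧
      MulChar.ofRootOfUnity hu1 hg x = z ^ (t * i) := by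
    intro x hx
    have h2 : Units.mk0 x hx ∈ Submonoid.powers g := mem_powers_iff_mem_zpowers.2 (hg _)
    obtain ⟨i, hi⟩ := h2
    have h3 : x = (g : ZMod l) ^ i := by
      rw [← Units.val_pow_eq_pow_val]
      change x = ((fun n : ℕ => g ^ n) i : (ZMod l)ˣ)
      rw [hi, Units.val_mk0]
    refine ⟨i, h3, ?_⟩
    rw [h3, map_pow, MulChar.ofRootOfUnity_spec, Units.val_pow_eq_pow_val, hu, ← pow_mul]
  refine ⟨k, MulChar.ofRootOfUnity hu1 hg, hk.symm, ?_, ?_⟩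
  · intro x hx
    obtain ⟨i, -, hi⟩ := key x hx
    rw [hi, ← pow_mul, mul_comm, pow_mul, hzp.pow_eq_one, one_pow]
  · intro x hx
    obtain ⟨i, hxi, hi⟩ := key x hx
    rw [hi, map_pow, pow_mul, ht, hxi, ← pow_mul, ← pow_mul, mul_comm]

end Pool.Agent.FW
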