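import Pool.Agent.Lib.FW.SpecA

/-! FW, part A: Stickelberger for a prime of degree one. -/

open scoped Pointwise NumberField

noncomputable section

namespace Pool.Agent.FW

open Pool.Agent.MuZ

theorem tADeg (h1 : S_AJac) : S_ADeg := by
  intro K _ _ m l _ hK hl π σ hσ c hc1
  induction c, hc1 using Nat.le_induction with
  | base =>
    intro hcm
    refine ⟨1, one_ne_zero, ?_⟩
    rw [Ideal.span_singleton_one, ← Ideal.one_eq_top]
    unfold St
    refine Finset.prod_eq_one fun a ha => ?_
    have h2 : 1 * a / m = 0 := by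
      rw [one_mul]
      exact Nat.div_eq_of_lt (Finset.mem_range.1 (Finset.mem_filter.1 ha).1)
    change ((σ a)⁻¹ • RingHom.ker π) ^ (1 * a / m) = 1
    rw [h2, pow_zero]
  | succ c hc ih =>
    intro hcm
    obtain ⟨x, hx, hx'⟩ := ih (by omega)
    obtain ⟨y, hy, hy'⟩ := h1 K m l hK hl π σ hσ c hc hcm
    refine ⟨x * y, mul_ne_zero hx hy, ?_⟩
    rw [← Ideal.span_singleton_mul_span_singleton, ← hx', ← hy']
    unfold St
    rw [← Finset.prod_mul_distrib]
    refine Finset.prod_congr rfl fun a _ => ?_
    rw [← pow_add]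
    congr 1
    exact (Nat.add_sub_cancel' (Nat.div_le_div_right (Nat.mul_le_mul_right a (Nat.le_succ c)))).symm

end Pool.Agent.FW
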