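import Pool.Agent.Lib.FW.SpecA

/-! FW, Part A: the factorization of a Jacobi sum. -/

open scoped Pointwise NumberField

noncomputable section

namespace Pool.Agent.FW

open Pool.Agent.MuZ

/-- Product of the Jacobi sums. -/
private theorem jac_mul {K : Type} [Field K] [NumberField K] {l : ℕ} [hl : Fact l.Prime]
    (φ ψ : MulChar (ZMod l) (𝓞 K)) (h1 : φ ≠ 1) (h2 : ψ ≠ 1) (h3 : φ * ψ ≠ 1) :
    jacobiSum φ ψ * jacobiSum φ⁻¹ ψ⁻¹ = (l : 𝓞 K) := by
  have hinj : Function.Injective (algebraMap (𝓞 K) K) := FaithfulSMul.algebraMap_injective _ _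
  have h1' := (MulChar.ringHomComp_ne_one_iff hinj).2 h1
  have h2' := (MulChar.ringHomComp_ne_one_iff hinj).2 h2
  have h3' := (MulChar.ringHomComp_ne_one_iff hinj).2 h3
  rw [MulChar.ringHomComp_mul] at h3'
  have hch : ringChar K ≠ ringChar (ZMod l) := by
    rw [ZMod.ringChar_zmod_n, ringChar.eq_zero]
    exact (hl.out.ne_zero).symm
  have h4 := jacobiSum_mul_jacobiSum_inv hch h1' h2' h3'
  rw [MulChar.ringHomComp_inv, MulChar.ringHomComp_inv, jacobiSum_ringHomComp,
    jacobiSum_ringHomComp, ← map_mul, ZMod.card] at h4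
  apply hinj
  rw [h4, map_natCast]

private theorem triv_dvd {K : Type} [Field K] [NumberField K] {m l k : ℕ} [hl : Fact l.Prime]
    (π : 𝓞 K →+* ZMod l) (χ : MulChar (ZMod l) (𝓞 K)) (hmk : m * k = l - 1)
    (h2 : ∀ x : ZMod l, x ≠ 0 → π (χ x) = x ^ k) (n : ℕ) (h : χ ^ n = 1) : m ∣ n := by
  obtain ⟨g, hg⟩ := IsCyclic.exists_generator (α := (ZMod l)ˣ)
  have hgo : orderOf g = l - 1 := by
    rw [orderOf_eq_card_of_forall_mem_zpowers hg, Nat.card_eq_fintype_card, ZMod.card_units]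
  have h3 : (χ ^ n) (g : ZMod l) = χ (g : ZMod l) ^ n := MulChar.pow_apply_coe χ n g
  rw [h, MulChar.one_apply_coe] at h3
  have h4 : ((g : ZMod l) ^ k) ^ n = 1 := by
    rw [← h2 _ g.ne_zero, ← map_pow, ← h3, map_one]
  have h5 : g ^ (k * n) = 1 := by
    ext
    rw [Units.val_pow_eq_pow_val, Units.val_one, pow_mul]
    exact h4
  have h6 := orderOf_dvd_of_pow_eq_one h5
  rw [hgo, ← hmk, mul_comm m k] at h6
  have hk : 0 < k := by
    rcases Nat.eq_zero_or_pos k with h0 | h0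
    · exfalso
      rw [h0, mul_zero] at hmk
      have := hl.out.two_le
      omega
    · exact h0
  exact Nat.dvd_of_mul_dvd_mul_left hk h6

private theorem modc {m b c : ℕ} (hm : 0 < m) (h : m ∣ b + c) (hc : c % m ≠ 0) :
    b % m + c % m = m := by
  have h1 : m ∣ b % m + c % m := by
    rw [Nat.dvd_iff_mod_eq_zero, ← Nat.add_mod]
    exact Nat.mod_eq_zero_of_dvd h
  have h2 := Nat.mod_lt b hm
  have h3 := Nat.mod_lt c hm
  obtain ⟨t, ht⟩ := h1
  rcases t with _ | _ | t
  · omega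
  · omega
  · exfalso
    have h4 : m * (t + 1 + 1) = m * t + m + m := by ring
    rw [h4] at ht
    omega

private theorem num (m j a : ℕ) (ha : a < m) (hc : a.Coprime m) (hj : 1 ≤ j) (hjm : j + 1 < m) :
    (a * (m - 1) % m + a * (m - j) % m < m → (j + 1) * a / m - j * a / m = 1) ∧
    (¬ a * (m - 1) % m + a * (m - j) % m < m → (j + 1) * a / m - j * a / m = 0) := by
  have hm : 0 < m := by omega
  have ha0 : a ≠ 0 := by
    rintro rfl
    rw [Nat.coprime_zero_left] at hc
    omega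
  have ham : a % m = a := Nat.mod_eq_of_lt ha
  have e1 : a * (m - 1) % m + a % m = m := by
    apply modc hm
    · have : a * (m - 1) + a = a * m := by
        obtain ⟨m', rfl⟩ : ∃ m', m = m' + 1 := ⟨m - 1, by omega⟩
        rw [Nat.add_sub_cancel]
        ring
      rw [this]
      exact Dvd.intro_left a rfl
    · rw [ham]
      exact ha0
  have hnd : ∀ i, 0 < i → i < m → ¬ m ∣ i * a := by
    intro i h0 h1 h2
    have h3 := Nat.le_of_dvd h0 (hc.symm.dvd_of_dvd_mul_right h2)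
    omega
  have e2 : a * (m - j) % m + j * a % m = m := by
    apply modc hm
    · have : a * (m - j) + j * a = a * m := by
        obtain ⟨m', rfl⟩ : ∃ m', m = m' + j := ⟨m - j, by omega⟩
        rw [Nat.add_sub_cancel]
        ring
      rw [this]
      exact Dvd.intro_left a rfl
    · intro h
      exact hnd j (by omega) (by omega) (Nat.dvd_of_mod_eq_zero h)
  have hu : j * a % m < m := Nat.mod_lt _ hm
  have e3 := Nat.div_add_mod (j * a) m
  have e4 : (j + 1) * a = (j * a % m + a) + m * (j * a / m) := by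
    rw [add_mul, one_mul]
    omega
  have e5 : (j + 1) * a / m = (j * a % m + a) / m + j * a / m := by
    rw [e4, Nat.add_mul_div_left _ _ hm]
  have e6 : j * a % m + a ≠ m := by
    intro h
    apply hnd (j + 1) (by omega) hjm
    rw [e4, h]
    exact (Nat.dvd_add_right (dvd_refl m)).2 (Dvd.intro _ rfl)
  rw [e5, Nat.add_sub_cancel]
  rw [ham] at e1
  constructor
  · intro h
    have h1 : m ≤ j * a % m + a := by omega
    exact Nat.div_eq_of_lt_le (by omega) (by omega)
  · intro h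
    have h1 : j * a % m + a < m := by omega
    exact Nat.div_eq_of_lt h1

theorem tAJac (h1 : S_AChi) (h2 : S_AMem) (h3 : S_ASplit) (h4 : S_ASqf) : S_AJac := by
  intro K _ _ m l hl hK hlm π σ hσ j hj hjm
  obtain ⟨k, χ, hmk, hχ1, hχ2⟩ := h1 K m l hK hlm π
  obtain ⟨hinj, hprod⟩ := h3 K m l hK hlm π σ hσ
  have hm : 0 < m := hK.pos
  have hχm : χ ^ m = 1 := by
    apply MulChar.ext
    intro a
    rw [MulChar.pow_apply_coe, MulChar.one_apply_coe, hχ1 _ a.ne_zero]
  have hr : (χ ^ (m - 1))⁻¹ = χ ^ 1 := by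
    apply inv_eq_of_mul_eq_one_right
    rw [← pow_add, Nat.sub_add_cancel hm, hχm]
  have hs : (χ ^ (m - j))⁻¹ = χ ^ j := by
    apply inv_eq_of_mul_eq_one_right
    rw [← pow_add, Nat.sub_add_cancel (by omega), hχm]
  have hnd : ∀ i, 0 < i → i < m → ¬ m ∣ i := fun i h0 h1 h2 => by
    have := Nat.le_of_dvd h0 h2
    omega
  have n1 : χ ^ (m - 1) ≠ 1 := fun h =>
    hnd _ (by omega) (by omega) (triv_dvd π χ hmk hχ2 _ h)
  have n2 : χ ^ (m - j) ≠ 1 := fun h =>
    hnd _ (by omega) (by omega) (triv_dvd π χ hmk hχ2 _ h)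
  have n3 : χ ^ (m - 1) * χ ^ (m - j) ≠ 1 := fun h => by
    rw [← pow_add] at h
    have h5 := triv_dvd π χ hmk hχ2 _ h
    have h6 : m - 1 + (m - j) = m + (m - 1 - j) := by omega
    rw [h6] at h5
    exact hnd (m - 1 - j) (by omega) (by omega) ((Nat.dvd_add_right (dvd_refl m)).1 h5)
  have hJ := jac_mul _ _ n1 n2 n3
  have hJ0 : jacobiSum (χ ^ (m - 1)) (χ ^ (m - j)) ≠ 0 := by
    intro h
    rw [h, zero_mul] at hJ
    exact hl.out.ne_zero (by exact_mod_cast hJ.symm)
  refine ⟨jacobiSum (χ ^ (m - 1)) (χ ^ (m - j)), hJ0, ?_⟩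
  symm
  refine h4 K (Un m) (fun a => (σ a)⁻¹ • RingHom.ker π) (fun a => (j + 1) * a / m - j * a / m)
    (Ideal.span {jacobiSum (χ ^ (m - 1)) (χ ^ (m - j))}) ?_ hinj ?_ ?_
  · intro a _
    change ((σ a)⁻¹ • RingHom.ker π).IsMaximal
    rw [smul_ker]
    exact ker_max _
  · change Ideal.span {jacobiSum (χ ^ (m - 1)) (χ ^ (m - j))} ∣
      ∏ a ∈ Un m, (σ a)⁻¹ • RingHom.ker π
    rw [hprod, Ideal.dvd_span_singleton, Ideal.mem_span_singleton]
    exact ⟨_, hJ.symm⟩
  · intro a ha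
    have ha' : a < m ∧ a.Coprime m := by
      unfold Un at ha
      rw [Finset.mem_filter, Finset.mem_range] at ha
      exact ha
    have key : Ideal.span {jacobiSum (χ ^ (m - 1)) (χ ^ (m - j))} ≤ (σ a)⁻¹ • RingHom.ker π ↔
        a * (m - 1) % m + a * (m - j) % m < m := by
      rw [Ideal.span_singleton_le_iff_mem, mem_inv_smul, RingHom.mem_ker]
      exact h2 K m l k π χ hmk hχ1 hχ2 (σ a) a ha'.2 (hσ a ha) (m - 1) (m - j)
        (hnd _ (by omega) (by omega)) (hnd _ (by omega) (by omega))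
    obtain ⟨k1, k2⟩ := num m j a ha'.1 ha'.2 hj hjm
    exact ⟨fun h => k1 (key.1 h), fun h => k2 fun h' => h (key.2 h')⟩

end Pool.Agent.FW
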