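import Pool.Agent.Lib.FW.SpecA

/-!
FW, Part A, module AMem (helper26): Jacobi sums modulo the conjugate primes.
-/

open scoped Pointwise NumberField

noncomputable section

namespace Pool.Agent.FW

open Pool.Agent.MuZ

theorem tAMem (h1 : S_ASum) : S_AMem := by
  intro K _ _ m l k hl π χ hmk hχ1 hχ2 σ a ha hσ r s hr hs
  have hl2 : 2 ≤ l := hl.out.two_le
  have hm : 0 < m := by
    rcases Nat.eq_zero_or_pos m with h | h
    · rw [h, zero_mul] at hmk
      omega
    · exact h
  have hk : 0 < k := by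
    rcases Nat.eq_zero_or_pos k with h | h
    · rw [h, mul_zero] at hmk
      omega
    · exact h
  have hmod : ∀ r : ℕ, ¬ m ∣ r → 0 < a * r % m := by
    intro r hr
    rcases Nat.eq_zero_or_pos (a * r % m) with h | h
    · exact absurd (ha.symm.dvd_of_dvd_mul_left (Nat.dvd_of_mod_eq_zero h)) hr
    · exact h
  have key : ∀ r : ℕ, ¬ m ∣ r → ∀ x : ZMod l, π (σ • (χ ^ r) x) = x ^ (k * (a * r % m)) := by
    intro r hr x
    have hr0 : r ≠ 0 := by
      rintro rfl
      exact hr (dvd_zero m)
    rw [MulChar.pow_apply' χ hr0, smul_pow', map_pow]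
    by_cases hx : x = 0
    · rw [hx, MulChar.map_zero, smul_zero, map_zero, zero_pow hr0,
        zero_pow (mul_pos hk (hmod r hr)).ne']
    · have h2 : σ • χ x = χ x ^ a := by
        apply NumberField.RingOfIntegers.ext
        have h3 : ((χ x : 𝓞 K) : K) ^ m = 1 := by
          have h := congrArg (fun x : 𝓞 K => (x : K)) (hχ1 x hx)
          simpa using h
        rw [coe_smul_RoI, hσ _ h3]
        simp
      rw [h2, map_pow, hχ2 x hx, ← pow_mul, ← pow_mul]
      have h4 : (x ^ k) ^ m = 1 := by
        rw [← hχ2 x hx, ← map_pow, hχ1 x hx, map_one]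
      have h5 : k * (a * r) = k * (a * r % m) + k * m * (a * r / m) := by
        have h6 := Nat.div_add_mod (a * r) m
        calc k * (a * r) = k * (a * r) := rfl
          _ = k * (m * (a * r / m) + a * r % m) := by rw [h6]
          _ = _ := by ring
      rw [h5, pow_add, pow_mul x (k * m), pow_mul x k m, h4, one_pow, mul_one]
  have hJ : π (σ • jacobiSum (χ ^ r) (χ ^ s)) =
      ∑ x : ZMod l, x ^ (k * (a * r % m)) * (1 - x) ^ (k * (a * s % m)) := by
    unfold jacobiSum
    rw [Finset.smul_sum, map_sum]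
    refine Finset.sum_congr rfl fun x _ => ?_
    rw [smul_mul', map_mul, key r hr, key s hs]
  have hlt : ∀ r : ℕ, k * (a * r % m) < l - 1 := by
    intro r
    rw [← hmk, mul_comm m k]
    exact Nat.mul_lt_mul_of_pos_left (Nat.mod_lt _ hm) hk
  rw [hJ, h1 l _ _ (mul_pos hk (hmod r hr)) (hlt r) (mul_pos hk (hmod s hs)) (hlt s), ← mul_add, ← hmk,
    mul_comm m k]
  exact Nat.mul_lt_mul_left hk

end Pool.Agent.FW
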