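import Pool.Agent.Lib.FW.SpecA

/-! FW, part A, `S_APi` (helper29): the residue field of a prime of degree one. -/

open scoped Pointwise NumberField

noncomputable section

namespace Pool.Agent.FW

open Pool.Agent.MuZ

theorem tAPi : S_APi := by
  intro K _ _ q l _ hq
  have hl : l.Prime := Fact.out
  have hcard : Nat.card (𝓞 K ⧸ q) = l := by
    rw [← hq, Ideal.absNorm_apply, Submodule.cardQuot_apply]
  have hfin : Finite (𝓞 K ⧸ q) := Nat.finite_of_card_ne_zero (by rw [hcard]; exact hl.ne_zero)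
  have := Fintype.ofFinite (𝓞 K ⧸ q)
  have hcard2 : Fintype.card (𝓞 K ⧸ q) = l := by rw [← Nat.card_eq_fintype_card, hcard]
  let e : ZMod l ≃+* 𝓞 K ⧸ q := ZMod.ringEquivOfPrime (𝓞 K ⧸ q) hl hcard2
  refine ⟨(e.symm : (𝓞 K ⧸ q) →+* ZMod l).comp (Ideal.Quotient.mk q), ?_⟩
  ext x
  rw [RingHom.mem_ker, RingHom.comp_apply]
  constructor
  · intro h
    have h1 : e.symm (Ideal.Quotient.mk q x) = 0 := h
    rw [map_eq_zero_iff _ e.symm.injective] at h1
    exact Ideal.Quotient.eq_zero_iff_mem.1 h1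
  · intro h
    have h1 : Ideal.Quotient.mk q x = 0 := Ideal.Quotient.eq_zero_iff_mem.2 h
    rw [h1, map_zero]

end Pool.Agent.FW
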