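import Pool.Agent.Lib.FW.SpecA

/-!
FW, Part A, module ASplit (helper26): splitting of l.
-/

open scoped Pointwise NumberField

noncomputable section

namespace Pool.Agent.FW

open Pool.Agent.MuZ

private theorem ASplit_card (m : ℕ) : (Un m).card = m.totient := by
  rw [Nat.totient_eq_card_coprime]
  unfold Un
  congr 1
  exact Finset.filter_congr fun a _ => Nat.coprime_comm

theorem tASplit (h1 : S_AZeta) : S_ASplit := by
  intro K _ _ m l hl hK hlm π σ hσ
  haveI : NeZero m := ⟨hK.pos.ne'⟩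
  obtain ⟨ζ, hζ⟩ := hK.prim
  obtain ⟨z, hzp⟩ : ∃ z : 𝓞 K, IsPrimitiveRoot z m := ⟨hζ.toInteger, hζ.toInteger_isPrimitiveRoot⟩
  have hξ := h1 K m l π z hK.pos hlm hzp
  have hz : (z : K) ^ m = 1 := by
    have h := congrArg (fun x : 𝓞 K => (x : K)) hzp.pow_eq_one
    simpa using h
  have hsz : ∀ a ∈ Un m, π (σ a • z) = π z ^ a := by
    intro a ha
    rw [← map_pow]
    congr 1
    apply NumberField.RingOfIntegers.ext
    rw [coe_smul_RoI, hσ a ha _ hz]
    simp
  have hinj : ∀ a ∈ Un m, ∀ b ∈ Un m, (σ a)⁻¹ • RingHom.ker π = (σ b)⁻¹ • RingHom.ker π → a = b := by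
    intro a ha b hb hab
    rw [smul_ker, smul_ker] at hab
    have h2 := pi_ext _ _ hab
    have h3 : π (σ a • z) = π (σ b • z) := by
      rw [← piS_apply, ← piS_apply, h2]
    rw [hsz a ha, hsz b hb] at h3
    have ha' : a < m := Finset.mem_range.1 (Finset.mem_filter.1 ha).1
    have hb' : b < m := Finset.mem_range.1 (Finset.mem_filter.1 hb).1
    exact hξ.pow_inj ha' hb' h3
  refine ⟨hinj, ?_⟩
  have hdvd : ∏ a ∈ Un m, (σ a)⁻¹ • RingHom.ker π ∣ Ideal.span {(l : 𝓞 K)} := by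
    apply Finset.prod_dvd_of_coprime
    · intro a ha b hb hab
      change IsCoprime ((σ a)⁻¹ • RingHom.ker π) ((σ b)⁻¹ • RingHom.ker π)
      have hne : (σ a)⁻¹ • RingHom.ker π ≠ (σ b)⁻¹ • RingHom.ker π := fun h =>
        hab (hinj a (Finset.mem_coe.1 ha) b (Finset.mem_coe.1 hb) h)
      rw [smul_ker, smul_ker] at hne ⊢
      haveI := ker_max (piS π (σ a))
      haveI := ker_max (piS π (σ b))
      exact Ideal.isCoprime_of_isMaximal hne
    · intro a _
      rw [smul_ker, Ideal.dvd_span_singleton]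
      exact l_mem_ker _
  obtain ⟨J, hJ⟩ := hdvd
  have hn := congrArg Ideal.absNorm hJ
  rw [map_mul, map_prod, Ideal.absNorm_span_natCast, NumberField.RingOfIntegers.rank, hK.deg] at hn
  have h2 : ∏ a ∈ Un m, Ideal.absNorm ((σ a)⁻¹ • RingHom.ker π) = l ^ m.totient := by
    rw [Finset.prod_congr rfl fun a _ => by rw [smul_ker, ker_absNorm], Finset.prod_const, ASplit_card]
  rw [h2] at hn
  have h3 : Ideal.absNorm J = 1 := by
    have h4 : 0 < l ^ m.totient := pow_pos hl.out.pos _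
    exact Nat.eq_of_mul_eq_mul_left h4 (by rw [← hn, mul_one])
  rw [Ideal.absNorm_eq_one_iff] at h3
  rw [hJ, h3, ← Ideal.one_eq_top, mul_one]

end Pool.Agent.FW
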