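import Pool.Agent.Lib.FW.SpecA

/-! FW, part A, `S_ASqf` (helper29): divisors of a squarefree product of maximal ideals. -/

open scoped Pointwise NumberField

noncomputable section

namespace Pool.Agent.FW

open Pool.Agent.MuZ

private theorem asqf_ne {K : Type} [Field K] [NumberField K] {P : Ideal (𝓞 K)} (h : P.IsMaximal) :
    P ≠ ⊥ := (Ideal.bot_lt_of_maximal P (NumberField.RingOfIntegers.not_isField K)).ne'

theorem tASqf : S_ASqf := by
  classical
  intro K _ _ T P e
  induction T using Finset.induction_on with
  | empty =>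
    intro I _ _ hI _
    rw [Finset.prod_empty] at hI ⊢
    exact isUnit_iff_eq_one.1 (isUnit_of_dvd_one hI)
  | insert a T ha ih =>
    intro I hmax hinj hI he
    have hma : (P a).IsMaximal := hmax a (Finset.mem_insert_self a T)
    have hmT : ∀ b ∈ T, (P b).IsMaximal := fun b hb => hmax b (Finset.mem_insert_of_mem hb)
    have hiT : ∀ b ∈ T, ∀ c ∈ T, P b = P c → b = c := fun b hb c hc =>
      hinj b (Finset.mem_insert_of_mem hb) c (Finset.mem_insert_of_mem hc)
    rw [Finset.prod_insert ha] at hI ⊢
    by_cases h : I ≤ P a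
    · obtain ⟨I', hI'⟩ := Ideal.dvd_iff_le.2 h
      have h1 : I' ∣ ∏ b ∈ T, P b := by
        rw [hI'] at hI
        exact (mul_dvd_mul_iff_left (asqf_ne hma)).1 hI
      have h2 : ∀ b ∈ T, (I ≤ P b ↔ I' ≤ P b) := by
        intro b hb
        rw [hI']
        constructor
        · intro h3
          have hpb : (P b).IsPrime := (hmT b hb).isPrime
          rcases (Ideal.IsPrime.mul_le hpb).1 h3 with h4 | h4
          · have h5 : P a = P b := hma.eq_of_le (hmT b hb).ne_top h4
            have h6 := hinj a (Finset.mem_insert_self a T) b (Finset.mem_insert_of_mem hb) h5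
            exact absurd hb (h6 ▸ ha)
          · exact h4
        · intro h3
          exact Ideal.mul_le_right.trans h3
      have h3 := ih I' hmT hiT h1 (fun b hb => by
        have h4 := he b (Finset.mem_insert_of_mem hb)
        exact ⟨fun h5 => h4.1 ((h2 b hb).2 h5), fun h5 => h4.2 (fun h6 => h5 ((h2 b hb).1 h6))⟩)
      rw [(he a (Finset.mem_insert_self a T)).1 h, pow_one, ← h3, hI']
    · have h1 : IsCoprime I (P a) := by
        rw [Ideal.isCoprime_iff_sup_eq, sup_comm]
        by_contra hne
        have h2 : P a = P a ⊔ I := hma.eq_of_le hne le_sup_left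
        exact h (h2 ▸ le_sup_right)
      have h2 : I ∣ ∏ b ∈ T, P b := h1.dvd_of_dvd_mul_left hI
      have h3 := ih I hmT hiT h2 (fun b hb => he b (Finset.mem_insert_of_mem hb))
      rw [(he a (Finset.mem_insert_self a T)).2 h, pow_zero, one_mul, ← h3]

end Pool.Agent.FW
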