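import Pool.Agent.Lib.FW.SpecA

open scoped Pointwise NumberField

noncomputable section

namespace Pool.Agent.FW

open Pool.Agent.MuZ

private theorem sumPow_lt {l : ℕ} [Fact l.Prime] (j : ℕ) (hj : j < l - 1) :
    ∑ x : ZMod l, x ^ j = 0 := by
  refine FiniteField.sum_pow_lt_card_sub_one (K := ZMod l) j ?_
  rwa [ZMod.card]

private theorem sumPow_eq {l : ℕ} [Fact l.Prime] :
    ∑ x : ZMod l, x ^ (l - 1) = -1 := by
  have hl : 1 < l := (Fact.out : l.Prime).one_lt
  have h1 : ∀ x : ZMod l, x ^ (l - 1) = 1 - (if x = 0 then 1 else 0) := by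
    intro x
    by_cases hx : x = 0
    · rw [if_pos hx, hx, zero_pow (by omega), sub_self]
    · rw [if_neg hx, ZMod.pow_card_sub_one_eq_one hx, sub_zero]
  rw [Finset.sum_congr rfl fun x _ => h1 x, Finset.sum_sub_distrib, Finset.sum_ite_eq']
  simp

private theorem sumPow_gt {l : ℕ} [Fact l.Prime] (j : ℕ) (hj : l - 1 < j) (hj2 : j < 2 * (l - 1)) :
    ∑ x : ZMod l, x ^ j = 0 := by
  have h1 : ∀ x : ZMod l, x ^ j = x ^ (j - (l - 1)) := by
    intro x
    by_cases hx : x = 0
    · rw [hx, zero_pow (by omega), zero_pow (by omega)]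
    · have h2 : x ^ j = x ^ (j - (l - 1)) * x ^ (l - 1) := by
        rw [← pow_add]
        congr 1
        omega
      rw [h2, ZMod.pow_card_sub_one_eq_one hx, mul_one]
  rw [Finset.sum_congr rfl fun x _ => h1 x]
  exact sumPow_lt _ (by omega)

private theorem expand {l : ℕ} [Fact l.Prime] (A B : ℕ) :
    (∑ x : ZMod l, x ^ A * (1 - x) ^ B) =
      ∑ i ∈ Finset.range (B + 1), (-1) ^ i * (B.choose i : ZMod l) * ∑ x : ZMod l, x ^ (A + i) := by
  have h1 : ∀ x : ZMod l, x ^ A * (1 - x) ^ B =
      ∑ i ∈ Finset.range (B + 1), (-1) ^ i * (B.choose i : ZMod l) * x ^ (A + i) := by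
    intro x
    have h2 : (1 - x) ^ B = ((-x) + 1) ^ B := by ring
    rw [h2, add_pow, Finset.mul_sum]
    refine Finset.sum_congr rfl fun i _ => ?_
    rw [one_pow, neg_pow, pow_add]
    ring
  rw [Finset.sum_congr rfl fun x _ => h1 x, Finset.sum_comm]
  refine Finset.sum_congr rfl fun i _ => ?_
  rw [Finset.mul_sum]

theorem tASum : S_ASum := by
  intro l _ A B hA hA' hB hB'
  have hl : l.Prime := Fact.out
  rw [expand]
  constructor
  · intro h
    by_contra hc
    push Not at hc
    rw [Finset.sum_eq_single (l - 1 - A)] at h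
    · rw [show A + (l - 1 - A) = l - 1 by omega, sumPow_eq] at h
      have h3 : (B.choose (l - 1 - A) : ZMod l) = 0 := by
        rcases mul_eq_zero.1 h with h4 | h4
        · rcases mul_eq_zero.1 h4 with h5 | h5
          · exact absurd h5 (pow_ne_zero _ (neg_ne_zero.2 one_ne_zero))
          · exact h5
        · exact absurd h4 (neg_ne_zero.2 one_ne_zero)
      rw [ZMod.natCast_eq_zero_iff] at h3
      have h6 : l ∣ B.factorial := by
        have h7 := Nat.choose_mul_factorial_mul_factorial (n := B) (k := l - 1 - A) (by omega)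
        rw [← h7]
        exact (h3.mul_right _).mul_right _
      have h8 := (Nat.Prime.dvd_factorial hl).1 h6
      omega
    · intro i hi hne
      rw [Finset.mem_range] at hi
      rcases lt_trichotomy (A + i) (l - 1) with h4 | h4 | h4
      · rw [sumPow_lt _ h4, mul_zero]
      · omega
      · rw [sumPow_gt _ h4 (by omega), mul_zero]
    · intro hn
      rw [Finset.mem_range] at hn
      omega
  · intro h
    refine Finset.sum_eq_zero fun i hi => ?_
    rw [Finset.mem_range] at hi
    rw [sumPow_lt _ (by omega), mul_zero]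

end Pool.Agent.FW
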