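import Pool.Agent.Lib.FW.SpecA

/-! FW, part A, `S_AZeta`: roots of unity modulo a prime of degree one. -/

open scoped Pointwise NumberField

noncomputable section

namespace Pool.Agent.FW

open Pool.Agent.MuZ

theorem tAZeta : S_AZeta := by
  intro K _ _ m l _ π z hm hl hz
  haveI : NeZero (m : ZMod l) := ⟨fun h => hl ((ZMod.natCast_eq_zero_iff m l).1 h)⟩
  have h1 : (Polynomial.cyclotomic m (𝓞 K)).IsRoot z := hz.isRoot_cyclotomic hm
  have h2 := h1.map (f := π)
  rw [Polynomial.map_cyclotomic] at h2
  exact Polynomial.isRoot_cyclotomic_iff.1 h2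

end Pool.Agent.FW
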