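import Pool.Agent.Lib.FW.SpecA

open scoped Pointwise NumberField

noncomputable section

namespace Pool.Agent.FW

open Pool.Agent.MuZ

private theorem BAll_mul {K : Type} [Field K] [NumberField K] {A B : Ideal (𝓞 K)}
    (hA : Prc A) (hB : Prc B) : Prc (A * B) := by
  obtain ⟨a, ha, rfl⟩ := hA
  obtain ⟨b, hb, rfl⟩ := hB
  exact ⟨a * b, mul_ne_zero ha hb, Ideal.span_singleton_mul_span_singleton a b⟩

private theorem BAll_one {K : Type} [Field K] [NumberField K] : Prc (1 : Ideal (𝓞 K)) :=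
  ⟨1, one_ne_zero, by rw [Ideal.span_singleton_one, Ideal.one_eq_top]⟩

private theorem BAll_cancel {K : Type} [Field K] [NumberField K] {A B : Ideal (𝓞 K)}
    (hAB : Prc (A * B)) (hB : Prc B) : Prc A := by
  obtain ⟨x, hx, hxAB⟩ := hAB
  obtain ⟨b, hb, rfl⟩ := hB
  have h1 : x ∈ Ideal.span {b} := by
    have h2 : x ∈ A * Ideal.span {b} := by
      rw [hxAB]
      exact Ideal.mem_span_singleton_self x
    exact Ideal.mul_le_right h2
  obtain ⟨y, rfl⟩ := Ideal.mem_span_singleton.1 h1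
  have hy : y ≠ 0 := right_ne_zero_of_mul hx
  refine ⟨y, hy, ?_⟩
  have hne : (Ideal.span {b} : Ideal (𝓞 K)) ≠ 0 := by
    rw [Ideal.zero_eq_bot, Ne, Ideal.span_singleton_eq_bot]
    exact hb
  have h3 : A * Ideal.span {b} = Ideal.span {y} * Ideal.span {b} := by
    rw [hxAB, Ideal.span_singleton_mul_span_singleton, mul_comm]
  exact mul_right_cancel₀ hne h3

private theorem BAll_prod {K : Type} [Field K] [NumberField K] (Φ : Ideal (𝓞 K) →* Ideal (𝓞 K))
    (J : Ideal (𝓞 K)) : J ≠ ⊥ → (∀ Q : Ideal (𝓞 K), Q.IsPrime → Q ≠ ⊥ → Q ∣ J → Prc (Φ Q)) →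
    Prc (Φ J) := by
  refine UniqueFactorizationMonoid.induction_on_prime J ?_ ?_ ?_
  · intro h
    exact absurd rfl h
  · intro x hx _ _
    rw [isUnit_iff_eq_one.1 hx, map_one]
    exact BAll_one
  · intro a p ha hp ih _ h
    rw [map_mul]
    refine BAll_mul (h p (Ideal.isPrime_of_prime hp) ?_ (dvd_mul_right p a)) (ih ?_ ?_)
    · exact hp.ne_zero
    · exact ha
    · intro Q hQ hQ0 hQa
      exact h Q hQ hQ0 (hQa.mul_left p)

theorem tBAll (h1 : S_BPr) : S_BAll := by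
  intro K _ _ N0 hN0 Φ hΦ hq I hI
  refine BAll_prod Φ I hI ?_
  intro P hP hP0 _
  obtain ⟨α, J, hα, hJ, hJQ⟩ := h1 K N0 hN0 P hP hP0
  have hJ0 : J ≠ ⊥ := by
    intro h
    rw [h, Ideal.mul_bot, Ideal.span_singleton_eq_bot] at hJ
    exact hα hJ
  have hΦJ : Prc (Φ J) := by
    refine BAll_prod Φ J hJ0 ?_
    intro Q hQ _ hQJ
    exact hq Q hQ (hJQ Q hQ hQJ).1 (hJQ Q hQ hQJ).2
  refine BAll_cancel (B := Φ J) ?_ hΦJ
  rw [← map_mul, ← hJ]
  exact hΦ α hα

end Pool.Agent.FW
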