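import Pool.Agent.Lib.FW.SpecA

/-!
FW, Part B, module BCrt (helper26): approximation.
-/

open scoped Pointwise NumberField

noncomputable section

namespace Pool.Agent.FW

open Pool.Agent.MuZ

theorem tBCrt : S_BCrt := by
  classical
  intro K _ _ P l hP hl hlP
  have hl0 : (l : 𝓞 K) ≠ 0 := Nat.cast_ne_zero.2 hl.ne_zero
  have hspan : Ideal.span {(l : 𝓞 K)} ≠ ⊥ := by
    rw [Ne, Ideal.span_singleton_eq_bot]
    exact hl0
  have hbot : ∀ P' : Ideal (𝓞 K), (l : 𝓞 K) ∈ P' → P' ≠ ⊥ := by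
    rintro P' h rfl
    exact hl0 ((Ideal.mem_bot).1 h)
  set S := (UniqueFactorizationMonoid.normalizedFactors (Ideal.span {(l : 𝓞 K)})).toFinset with hS
  have hmem : ∀ P' : Ideal (𝓞 K), P' ∈ S ↔ P'.IsPrime ∧ (l : 𝓞 K) ∈ P' := by
    intro P'
    rw [hS, Multiset.mem_toFinset, Ideal.mem_normalizedFactors_iff hspan, Ideal.span_singleton_le_iff_mem]
  have hmax : ∀ P' : Ideal (𝓞 K), P'.IsPrime → (l : 𝓞 K) ∈ P' → P'.IsMaximal := fun P' h h' =>
    h.isMaximal (hbot P' h')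
  set I := ∏ Q ∈ S.erase P, Q with hI
  have hcop : IsCoprime (P ^ 2) I := by
    rw [hI]
    refine IsCoprime.prod_right fun Q hQ => IsCoprime.pow_left ?_
    obtain ⟨hQ1, hQ2⟩ := Finset.mem_erase.1 hQ
    obtain ⟨hQ3, hQ4⟩ := (hmem Q).1 hQ2
    haveI := hmax P hP hlP
    haveI := hmax Q hQ3 hQ4
    exact Ideal.isCoprime_of_isMaximal hQ1.symm
  obtain ⟨a, ha, c, hc, hac⟩ := Ideal.isCoprime_iff_exists.1 hcop
  have hlt : P ^ 2 < P := by
    have h := Ideal.pow_right_strictAnti P (hbot P hlP) hP.ne_top (show 1 < 2 by norm_num)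
    simpa using h
  obtain ⟨u, hu, hu2⟩ := SetLike.exists_of_lt hlt
  have hle : P ^ 2 ≤ P := hlt.le
  refine ⟨u * c + a, ?_, ?_, ?_⟩
  · exact P.add_mem (P.mul_mem_right c hu) (hle ha)
  · intro h
    apply hu2
    have h1 : u * c ∈ P ^ 2 := by
      have h2 := (P ^ 2).sub_mem h ha
      rwa [add_sub_cancel_right] at h2
    have h2 : u = u * a + u * c := by rw [← mul_add, hac, mul_one]
    rw [h2]
    exact (P ^ 2).add_mem ((P ^ 2).mul_mem_left u ha) h1
  · intro P' hP' hlP' hne h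
    have hIP : I ≤ P' := by
      apply Ideal.le_of_dvd
      exact Finset.dvd_prod_of_mem (fun Q => Q) (Finset.mem_erase.2 ⟨hne, (hmem P').2 ⟨hP', hlP'⟩⟩)
    have hc' : c ∈ P' := hIP hc
    have ha' : a ∈ P' := by
      have h2 := P'.sub_mem h (P'.mul_mem_left u hc')
      rwa [add_sub_cancel_left] at h2
    have h1 : (1 : 𝓞 K) ∈ P' := by
      rw [← hac]
      exact P'.add_mem ha' hc'
    exact hP'.ne_top ((Ideal.eq_top_iff_one P').2 h1)

end Pool.Agent.FW
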