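import Pool.Agent.Lib.FW.SpecA

/-!
FW, Part B, module BDeg (helper26): primes of degree one.
-/

open scoped Pointwise NumberField

noncomputable section

namespace Pool.Agent.FW

open Pool.Agent.MuZ

private theorem BDeg_dvd {K : Type} [Field K] [NumberField K] (Q : Ideal (𝓞 K)) (r : ℕ) (hQ : Q.IsPrime)
    (hr : r.Prime) (hrQ : (r : 𝓞 K) ∈ Q) (n : ℤ) (hn : (n : 𝓞 K) ∈ Q) : (r : ℤ) ∣ n := by
  by_contra h
  obtain ⟨u, v, huv⟩ := ((Nat.prime_iff_prime_int.1 hr).coprime_iff_not_dvd (n := n)).2 h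
  have h1 : (1 : 𝓞 K) ∈ Q := by
    have h2 : (u : 𝓞 K) * (r : 𝓞 K) + (v : 𝓞 K) * (n : 𝓞 K) = 1 := by exact_mod_cast congrArg (Int.cast : ℤ → 𝓞 K) huv
    rw [← h2]
    exact Q.add_mem (Q.mul_mem_left _ hrQ) (Q.mul_mem_left _ hn)
  exact hQ.ne_top ((Ideal.eq_top_iff_one Q).2 h1)

private theorem BDeg_inv {K : Type} [Field K] [NumberField K] (Q : Ideal (𝓞 K)) (r : ℕ)
    (hr : r.Prime) (hrQ : (r : 𝓞 K) ∈ Q) (n : ℕ) (hn : ¬ r ∣ n) :
    ∃ v : ℤ, (Ideal.Quotient.mk Q) (v : 𝓞 K) * (Ideal.Quotient.mk Q) (n : 𝓞 K) = 1 := by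
  have h : ¬ (r : ℤ) ∣ (n : ℤ) := fun h => hn (Int.natCast_dvd_natCast.1 h)
  obtain ⟨u, v, huv⟩ := ((Nat.prime_iff_prime_int.1 hr).coprime_iff_not_dvd (n := (n : ℤ))).2 h
  refine ⟨v, ?_⟩
  have h2 : (u : 𝓞 K) * (r : 𝓞 K) + (v : 𝓞 K) * (n : 𝓞 K) = 1 := by
    exact_mod_cast congrArg (Int.cast : ℤ → 𝓞 K) huv
  have h3 := congrArg (Ideal.Quotient.mk Q) h2
  rw [map_add, map_mul, map_mul, map_one, Ideal.Quotient.eq_zero_iff_mem.2 hrQ, mul_zero, zero_add] at h3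
  exact h3

theorem tBDeg : S_BDeg := by
  intro K _ _ b N hN Q r y s hQ hr hrQ hrN hry hs
  obtain ⟨v, hv⟩ := BDeg_inv Q r hr hrQ N hrN
  obtain ⟨v', hv'⟩ := BDeg_inv Q r hr hrQ y hry
  -- the class of b
  have hb : (Ideal.Quotient.mk Q) b = (Ideal.Quotient.mk Q) ((-(s * v') : ℤ) : 𝓞 K) := by
    have h1 := Ideal.Quotient.eq_zero_iff_mem.2 hs
    rw [map_add, map_mul] at h1
    calc (Ideal.Quotient.mk Q) b = ((Ideal.Quotient.mk Q) (v' : 𝓞 K) * (Ideal.Quotient.mk Q) (y : 𝓞 K)) *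
          (Ideal.Quotient.mk Q) b := by rw [hv', one_mul]
      _ = (Ideal.Quotient.mk Q) (v' : 𝓞 K) * ((Ideal.Quotient.mk Q) (s : 𝓞 K) +
          (Ideal.Quotient.mk Q) (y : 𝓞 K) * (Ideal.Quotient.mk Q) b) -
          (Ideal.Quotient.mk Q) (v' : 𝓞 K) * (Ideal.Quotient.mk Q) (s : 𝓞 K) := by ring
      _ = _ := by
        rw [h1]
        push_cast
        rw [map_neg, map_mul]
        ring
  -- every class contains an integer
  have hsur : ∀ z : 𝓞 K, ∃ n : ℤ, (Ideal.Quotient.mk Q) z = (Ideal.Quotient.mk Q) (n : 𝓞 K) := by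
    intro z
    have h1 := hN z
    rw [Algebra.adjoin_singleton_eq_range_aeval] at h1
    obtain ⟨F, hF⟩ := h1
    have h2 : (Ideal.Quotient.mk Q) (Polynomial.aeval b F) =
        (Ideal.Quotient.mk Q) ((F.eval (-(s * v')) : ℤ) : 𝓞 K) := by
      rw [Polynomial.aeval_def, Polynomial.hom_eval₂, hb]
      have h3 : (Ideal.Quotient.mk Q) ((-(s * v') : ℤ) : 𝓞 K) =
          ((Ideal.Quotient.mk Q).comp (algebraMap ℤ (𝓞 K))) (-(s * v')) := by simp
      rw [h3, Polynomial.eval₂_at_apply]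
      simp
    have hF' : Polynomial.aeval b F = (N : 𝓞 K) * z := hF
    refine ⟨v * F.eval (-(s * v')), ?_⟩
    calc (Ideal.Quotient.mk Q) z = ((Ideal.Quotient.mk Q) (v : 𝓞 K) * (Ideal.Quotient.mk Q) (N : 𝓞 K)) *
          (Ideal.Quotient.mk Q) z := by rw [hv, one_mul]
      _ = (Ideal.Quotient.mk Q) (v : 𝓞 K) * (Ideal.Quotient.mk Q) ((N : 𝓞 K) * z) := by
        rw [map_mul, mul_assoc]
      _ = _ := by
        rw [← hF', h2, ← map_mul]
        push_cast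
        rfl
  haveI : NeZero r := ⟨hr.ne_zero⟩
  have hbij : Function.Bijective (fun x : ZMod r => (Ideal.Quotient.mk Q) ((x.val : ℕ) : 𝓞 K)) := by
    constructor
    · intro x x' hxx
      have h1 : (Ideal.Quotient.mk Q) ((x.val : ℕ) : 𝓞 K) = (Ideal.Quotient.mk Q) ((x'.val : ℕ) : 𝓞 K) := hxx
      rw [Ideal.Quotient.eq] at h1
      have h2 : (r : ℤ) ∣ (x.val : ℤ) - (x'.val : ℤ) := by
        refine BDeg_dvd Q r hQ hr hrQ _ ?_
        push_cast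
        exact h1
      have h3 : ((((x.val : ℤ) - (x'.val : ℤ) : ℤ)) : ZMod r) = 0 :=
        (ZMod.intCast_zmod_eq_zero_iff_dvd _ _).2 h2
      push_cast at h3
      rw [ZMod.natCast_zmod_val, ZMod.natCast_zmod_val, sub_eq_zero] at h3
      exact h3
    · intro w
      obtain ⟨z, rfl⟩ := Ideal.Quotient.mk_surjective w
      obtain ⟨n, hn⟩ := hsur z
      refine ⟨(n : ZMod r), ?_⟩
      change (Ideal.Quotient.mk Q) ((((n : ZMod r)).val : ℕ) : 𝓞 K) = (Ideal.Quotient.mk Q) z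
      rw [hn, Ideal.Quotient.eq]
      have h1 : (r : ℤ) ∣ (((n : ZMod r)).val : ℤ) - n := by
        rw [← ZMod.intCast_zmod_eq_zero_iff_dvd]
        push_cast
        rw [ZMod.natCast_zmod_val, sub_self]
      obtain ⟨k, hk⟩ := h1
      have h2 : (((((n : ZMod r)).val : ℕ) : 𝓞 K) - (n : 𝓞 K)) = (r : 𝓞 K) * (k : 𝓞 K) := by
        exact_mod_cast congrArg (Int.cast : ℤ → 𝓞 K) hk
      rw [h2]
      exact Q.mul_mem_right _ hrQ
  rw [Ideal.absNorm_apply, Submodule.cardQuot_apply, ← Nat.card_congr (Equiv.ofBijective _ hbij),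
    Nat.card_zmod]

end Pool.Agent.FW
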