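import Pool.Agent.Lib.FW.SpecA

/-!
FW, Part B, module BGen (helper26): generators of K.
-/

open scoped Pointwise NumberField

noncomputable section

namespace Pool.Agent.FW

open Pool.Agent.MuZ

theorem tBGen : S_BGen := by
  intro K _ _ b M hM
  obtain ⟨θ, hθ⟩ := Field.exists_primitive_element ℚ K
  obtain ⟨d, hd, hdi⟩ :=
    ((IsFractionRing.isAlgebraic_iff ℤ ℚ K).2 (IsAlgebraic.of_finite ℚ θ)).exists_integral_multiple
  obtain ⟨w, hw⟩ : ∃ w : 𝓞 K, (w : K) = d • θ := ⟨⟨d • θ, hdi⟩, rfl⟩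
  haveI := Field.finite_intermediateField_of_exists_primitive_element ℚ K ⟨θ, hθ⟩
  obtain ⟨t, t', htt, hL⟩ := Finite.exists_ne_map_eq_of_infinite (fun t : ℕ =>
    IntermediateField.adjoin ℚ {((b + M * (t * w) : 𝓞 K) : K)})
  refine ⟨t * w, ?_⟩
  set L := IntermediateField.adjoin ℚ {((b + M * (t * w) : 𝓞 K) : K)} with hLd
  have h1 : ((b + M * (t * w) : 𝓞 K) : K) ∈ L := IntermediateField.mem_adjoin_simple_self ℚ _
  have h2 : ((b + M * (t' * w) : 𝓞 K) : K) ∈ L := by
    have hL' : L = IntermediateField.adjoin ℚ {((b + M * (t' * w) : 𝓞 K) : K)} := hL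
    rw [hL']
    exact IntermediateField.mem_adjoin_simple_self ℚ _
  have h3 := L.sub_mem h1 h2
  have h4 : ((b + M * (t * w) : 𝓞 K) : K) - ((b + M * (t' * w) : 𝓞 K) : K) =
      algebraMap ℚ K (M * (t - t') * d) * θ := by
    have key : ∀ s : ℕ, ((b + M * (s * w) : 𝓞 K) : K) = algebraMap (𝓞 K) K b + M * (s * (d * θ)) := by
      intro s
      change algebraMap (𝓞 K) K (b + M * (s * w)) = _
      have h5 : algebraMap (𝓞 K) K w = d * θ := by
        rw [← zsmul_eq_mul]
        exact hw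
      rw [map_add, map_mul, map_mul, map_natCast, map_natCast, h5]
    rw [key, key]
    simp
    ring
  rw [h4] at h3
  have hne : ((M : ℚ) * (t - t') * d) ≠ 0 := by
    refine mul_ne_zero (mul_ne_zero (Nat.cast_ne_zero.2 hM) (sub_ne_zero.2 ?_)) (Int.cast_ne_zero.2 hd)
    exact fun h => htt (Nat.cast_injective h)
  have h5 : θ ∈ L := by
    have h6 := L.mul_mem (L.algebraMap_mem ((M : ℚ) * (t - t') * d)⁻¹) h3
    rw [← mul_assoc, ← map_mul, inv_mul_cancel₀ hne, map_one, one_mul] at h6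
    exact h6
  rw [eq_top_iff, ← hθ]
  exact IntermediateField.adjoin_simple_le_iff.2 h5

end Pool.Agent.FW
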