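import Pool.Agent.Lib.FW.SpecA

/-!
FW, Part B, module BIdx (helper26): the index of the order generated by b.
-/

open scoped Pointwise NumberField

noncomputable section

namespace Pool.Agent.FW

open Pool.Agent.MuZ

/-- multiples of the elements of the field -/
private theorem BIdx_mul {K : Type} [Field K] [NumberField K] (b : K) (x : K)
    (hx : x ∈ Algebra.adjoin ℚ ({b} : Set K)) :
    ∃ n : ℕ, n ≠ 0 ∧ (n : K) * x ∈ Algebra.adjoin ℤ ({b} : Set K) := by
  induction hx using Algebra.adjoin_induction with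
  | mem x hx =>
    refine ⟨1, one_ne_zero, ?_⟩
    rw [Nat.cast_one, one_mul]
    exact Algebra.subset_adjoin hx
  | algebraMap q =>
    refine ⟨q.den, q.den_nz, ?_⟩
    have h1 : ((q.den : ℕ) : K) * algebraMap ℚ K q = algebraMap ℤ K q.num := by
      have h2 : ((q.den : ℚ)) * q = q.num := Rat.den_mul_eq_num q
      have h3 := congrArg (algebraMap ℚ K) h2
      rw [map_mul] at h3
      simpa using h3
    rw [h1]
    exact Subalgebra.algebraMap_mem _ _
  | add x y _ _ hx hy =>
    obtain ⟨n, hn, hn'⟩ := hx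
    obtain ⟨k, hk, hk'⟩ := hy
    refine ⟨n * k, mul_ne_zero hn hk, ?_⟩
    have h1 : ((n * k : ℕ) : K) * (x + y) = (k : K) * ((n : K) * x) + (n : K) * ((k : K) * y) := by
      push_cast
      ring
    rw [h1]
    exact Subalgebra.add_mem _ (Subalgebra.mul_mem _ (Subalgebra.natCast_mem _ k) hn')
      (Subalgebra.mul_mem _ (Subalgebra.natCast_mem _ n) hk')
  | mul x y _ _ hx hy =>
    obtain ⟨n, hn, hn'⟩ := hx
    obtain ⟨k, hk, hk'⟩ := hy
    refine ⟨n * k, mul_ne_zero hn hk, ?_⟩
    have h1 : ((n * k : ℕ) : K) * (x * y) = ((n : K) * x) * ((k : K) * y) := by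
      push_cast
      ring
    rw [h1]
    exact Subalgebra.mul_mem _ hn' hk'

theorem tBIdx : S_BIdx := by
  classical
  intro K _ _ b hb
  -- step 1
  have h1 : ∀ z : 𝓞 K, ∃ n : ℕ, n ≠ 0 ∧ (n : 𝓞 K) * z ∈ Algebra.adjoin ℤ ({b} : Set (𝓞 K)) := by
    intro z
    have hz : (z : K) ∈ Algebra.adjoin ℚ ({(b : K)} : Set K) := by
      rw [← IntermediateField.adjoin_simple_toSubalgebra_of_isAlgebraic (IsAlgebraic.of_finite ℚ (b : K)), hb]
      exact IntermediateField.mem_top
    obtain ⟨n, hn, hn'⟩ := BIdx_mul (b : K) (z : K) hz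
    refine ⟨n, hn, ?_⟩
    have h2 : Algebra.adjoin ℤ ({(b : K)} : Set K) =
        (Algebra.adjoin ℤ ({b} : Set (𝓞 K))).map ((algebraMap (𝓞 K) K).toIntAlgHom) := by
      rw [AlgHom.map_adjoin, Set.image_singleton]
      rfl
    rw [h2] at hn'
    obtain ⟨w, hw, hwz⟩ := hn'
    have h3 : w = (n : 𝓞 K) * z := by
      apply NumberField.RingOfIntegers.ext
      change (algebraMap (𝓞 K) K) w = (algebraMap (𝓞 K) K) ((n : 𝓞 K) * z)
      rw [map_mul, map_natCast]
      exact hwz
    rw [← h3]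
    exact hw
  choose n hn hn' using h1
  -- step 2
  obtain ⟨S, hS⟩ := (Module.Finite.fg_top : (⊤ : Submodule ℤ (𝓞 K)).FG)
  refine ⟨∏ s ∈ S, n s, Finset.prod_ne_zero_iff.2 fun s _ => hn s, fun z => ?_⟩
  have hz : z ∈ Submodule.span ℤ (S : Set (𝓞 K)) := by
    rw [hS]
    exact Submodule.mem_top
  induction hz using Submodule.span_induction with
  | mem s hs =>
    have hs' := Finset.mem_coe.1 hs
    rw [← Finset.prod_erase_mul S _ hs']
    push_cast
    rw [mul_assoc]
    refine Subalgebra.mul_mem _ ?_ (hn' s)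
    exact Subalgebra.prod_mem _ fun i _ => Subalgebra.natCast_mem _ _
  | zero =>
    rw [mul_zero]
    exact Subalgebra.zero_mem _
  | add x y _ _ hx hy =>
    rw [mul_add]
    exact Subalgebra.add_mem _ hx hy
  | smul a x _ hx =>
    rw [mul_smul_comm]
    exact Subalgebra.smul_mem _ hx a

end Pool.Agent.FW
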