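import Pool.Agent.Lib.FW.SpecA

/-! FW, part ST: the field `Cy m` is the `m`-th cyclotomic field. -/

open scoped Pointwise NumberField

noncomputable section

namespace Pool.Agent.FW

open Pool.Agent.MuZ

private theorem CyK_ext (m : ℕ) (hm : 0 < m) : IsCyclotomicExtension {m} ℚ (Cy m) := by
  have : NeZero m := ⟨hm.ne'⟩
  have h : ∀ n ∈ ({m} : Set ℕ), n ≠ 0 → ∃ r : Om, IsPrimitiveRoot r n := by
    intro n hn _
    rw [Set.mem_singleton_iff] at hn
    subst hn
    exact HasEnoughRootsOfUnity.exists_primitiveRoot Om n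
  have h1 := IntermediateField.isCyclotomicExtension_adjoin_of_exists_isPrimitiveRoot {m} ℚ Om h
  have h2 : {b : Om | ∃ n ∈ ({m} : Set ℕ), n ≠ 0 ∧ b ^ n = 1} = {z : Om | z ^ m = 1} := by
    ext b
    constructor
    · rintro ⟨n, hn, -, hb⟩
      rw [Set.mem_singleton_iff] at hn
      subst hn
      exact hb
    · intro hb
      exact ⟨m, rfl, hm.ne', hb⟩
  rw [h2] at h1
  exact h1

private theorem CyK_alg (F : Type) [Field F] (A B : Algebra ℚ F) (n : ℕ)
    (h : @Module.Finite ℚ F _ _ A.toModule) (h' : @Module.finrank ℚ F _ _ A.toModule = n) :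
    @Module.Finite ℚ F _ _ B.toModule ∧ @Module.finrank ℚ F _ _ B.toModule = n := by
  have e : A = B := Subsingleton.elim _ _
  subst e
  exact ⟨h, h'⟩

theorem tCyK : S_CyK := by
  intro m hm
  have : NeZero m := ⟨hm.ne'⟩
  have hE := CyK_ext m hm
  have hfd : FiniteDimensional ℚ (Cy m) := IsCyclotomicExtension.finiteDimensional {m} ℚ (Cy m)
  have hfr : Module.finrank ℚ (Cy m) = m.totient :=
    IsCyclotomicExtension.finrank (Cy m) (Polynomial.cyclotomic.irreducible_rat hm)
  have hpr : ∃ ζ : Cy m, IsPrimitiveRoot ζ m :=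
    IsCyclotomicExtension.exists_isPrimitiveRoot ℚ (Cy m) (Set.mem_singleton m) hm.ne'
  have key := fun B : Algebra ℚ (Cy m) => CyK_alg (Cy m) (Cy m).algebra' B m.totient hfd hfr
  have hNF : NumberField (Cy m) :=
    { to_charZero := inferInstance
      to_finiteDimensional := (key _).1 }
  exact ⟨hNF, hm, hpr, (key _).2⟩

end Pool.Agent.FW
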