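import Pool.Agent.Lib.FW.SpecA

/-!
FW/A, module OId (helper32): integral ideals which generate the ideal of `β`.
-/

open scoped Pointwise NumberField

noncomputable section

namespace Pool.Agent.FW

open Pool.Agent.MuZ

private theorem oid_den (s : Finset Om) : ∃ d : ℕ, d ≠ 0 ∧ ∀ x ∈ s, IsIntegral ℤ ((d : Om) * x) := by
  classical
  induction s using Finset.induction_on with
  | empty => exact ⟨1, one_ne_zero, fun x hx => absurd hx (Finset.notMem_empty x)⟩
  | insert a s _ ih =>
    obtain ⟨d, hd, h⟩ := ih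
    have ha : IsAlgebraic ℤ a :=
      (IsFractionRing.isAlgebraic_iff ℤ ℚ Om).2 (Algebra.IsAlgebraic.isAlgebraic (R := ℚ) a)
    obtain ⟨y, hy0, hy⟩ := ha.exists_integral_multiple
    obtain ⟨n, hn0, hn⟩ : ∃ n : ℕ, n ≠ 0 ∧ IsIntegral ℤ ((n : Om) * a) := by
      obtain ⟨n, rfl | rfl⟩ := Int.eq_nat_or_neg y
      · refine ⟨n, fun h => hy0 (by rw [h]; rfl), ?_⟩
        rwa [zsmul_eq_mul, Int.cast_natCast] at hy
      · refine ⟨n, fun h => hy0 (by rw [h]; rfl), ?_⟩
        rw [zsmul_eq_mul, Int.cast_neg, Int.cast_natCast, neg_mul] at hy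
        simpa using hy.neg
    refine ⟨d * n, mul_ne_zero hd hn0, fun x hx => ?_⟩
    rcases Finset.mem_insert.1 hx with rfl | hx
    · have h3 : ((d * n : ℕ) : Om) * x = (d : Om) * ((n : Om) * x) := by
        push_cast
        ring
      rw [h3]
      exact (isIntegral_natCast d).mul hn
    · have h3 : ((d * n : ℕ) : Om) * x = (n : Om) * ((d : Om) * x) := by
        push_cast
        ring
      rw [h3]
      exact (isIntegral_natCast n).mul (h x hx)

theorem tOId : S_OId := by
  classical
  intro L β ⟨hβ0, s, hsL, hspan⟩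
  obtain ⟨d, hd, hint⟩ := oid_den s
  -- the integral multiples
  have hlift : ∀ x ∈ s, ∃ x' : 𝓞 L, ((x' : L) : Om) = d * x := by
    intro x hx
    have hxL : (d : Om) * x ∈ L := mul_mem (natCast_mem L d) (hsL x hx)
    have h1 : IsIntegral ℤ (⟨(d : Om) * x, hxL⟩ : L) :=
      (isIntegral_algHom_iff (L.val.restrictScalars ℤ) Subtype.val_injective).1 (hint x hx)
    exact ⟨⟨⟨(d : Om) * x, hxL⟩, h1⟩, rfl⟩
  let S : Set (𝓞 L) := {x' | ∃ x ∈ s, ((x' : L) : Om) = d * x}
  have hβs : β ∈ Submodule.span ZZ (s : Set Om) := by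
    rw [hspan]
    exact Submodule.mem_span_singleton_self β
  obtain ⟨z, -, hz⟩ := Submodule.mem_span_finset.1 hβs
  let xi : Om → 𝓞 L := fun x => if h : x ∈ s then (hlift x h).choose else 0
  have hxi : ∀ x ∈ s, (((xi x : 𝓞 L) : L) : Om) = d * x := by
    intro x hx
    have : xi x = (hlift x hx).choose := dif_pos hx
    rw [this]
    exact (hlift x hx).choose_spec
  let b : ZZ := ∑ x ∈ s, z x * inc L (xi x)
  have hb : (b : Om) = d * β := by
    rw [← hz, Finset.mul_sum]
    change (integralClosure ℤ Om).val (∑ x ∈ s, z x * inc L (xi x)) = _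
    rw [map_sum]
    refine Finset.sum_congr rfl fun x hx => ?_
    rw [map_mul]
    change (z x : Om) * (((xi x : 𝓞 L) : L) : Om) = _
    rw [hxi x hx]
    change (z x : Om) * (d * x) = d * ((z x : Om) * x)
    ring
  have hd0 : (d : Om) ≠ 0 := Nat.cast_ne_zero.2 hd
  have hb0 : b ≠ 0 := by
    intro h
    have h1 : (b : Om) = 0 := by rw [h]; rfl
    rw [hb] at h1
    exact (mul_ne_zero hd0 hβ0) h1
  have hmap : (Ideal.span S).map (inc L) = Ideal.span {b} := by
    rw [Ideal.map_span]
    apply le_antisymm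
    · rw [Ideal.span_le]
      rintro w ⟨x', ⟨x, hx, hx'⟩, rfl⟩
      have h1 : x ∈ Submodule.span ZZ ({β} : Set Om) := by
        rw [← hspan]
        exact Submodule.subset_span hx
      obtain ⟨c, hc⟩ := Submodule.mem_span_singleton.1 h1
      have h2 : inc L x' = c * b := by
        apply Subtype.ext
        change ((x' : L) : Om) = (c : Om) * (b : Om)
        rw [hx', hb, ← hc]
        change (d : Om) * ((c : Om) * β) = (c : Om) * (d * β)
        ring
      rw [h2]
      exact Ideal.mul_mem_left _ _ (Ideal.mem_span_singleton_self b)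
    · rw [Ideal.span_singleton_le_iff_mem]
      refine Submodule.sum_mem _ fun x hx => Ideal.mul_mem_left _ _ (Ideal.subset_span ?_)
      exact ⟨xi x, ⟨x, hx, hxi x hx⟩, rfl⟩
  refine ⟨d, Ideal.span S, b, hd, ?_, hb, hmap⟩
  intro h
  rw [h, Ideal.map_bot] at hmap
  exact hb0 (Ideal.span_singleton_eq_bot.1 hmap.symm)

end Pool.Agent.FW
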