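import Pool.Agent.Lib.FW.SpecA

open scoped Pointwise NumberField

noncomputable section

namespace Pool.Agent.FW

open Pool.Agent.MuZ

theorem tSTK (h1 : S_APi) (h2 : S_ADeg) (h3 : S_BAll) : S_STK := by
  intro K _ _ m c hK hc1 hcm σ hσ I hI
  have hm : m ≠ 0 := hK.pos.ne'
  let Φ : Ideal (𝓞 K) →* Ideal (𝓞 K) :=
    { toFun := St m (fun a => c * a / m) σ
      map_one' := St_one m _ σ
      map_mul' := St_mul m _ σ }
  refine h3 K m hm Φ ?_ ?_ I hI
  · intro x hx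
    refine ⟨∏ a ∈ Un m, ((σ a)⁻¹ • x) ^ (c * a / m), ?_, St_span m _ σ x⟩
    refine Finset.prod_ne_zero_iff.2 fun a _ => pow_ne_zero _ ?_
    exact (smul_ne_zero_iff_ne (σ a)⁻¹).2 hx
  · intro q _ hq hqm
    have : Fact (Ideal.absNorm q).Prime := ⟨hq⟩
    obtain ⟨π, hπ⟩ := h1 K q (Ideal.absNorm q) rfl
    have h4 := h2 K m (Ideal.absNorm q) hK hqm π σ hσ c hc1 hcm
    rw [hπ] at h4
    exact h4

end Pool.Agent.FW
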