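import Pool.Agent.Lib.FW.A.ST
import Pool.Agent.Lib.FW.A.CyK
import Pool.Agent.Lib.FW.A.OId
import Pool.Agent.Lib.FW.A.STK
import Pool.Agent.Lib.FW.A.APi
import Pool.Agent.Lib.FW.A.ADeg
import Pool.Agent.Lib.FW.A.AJac
import Pool.Agent.Lib.FW.A.AChi
import Pool.Agent.Lib.FW.A.AZeta
import Pool.Agent.Lib.FW.A.AMem
import Pool.Agent.Lib.FW.A.ASum
import Pool.Agent.Lib.FW.A.ASplit
import Pool.Agent.Lib.FW.A.ASqf
import Pool.Agent.Lib.FW.A.BAll
import Pool.Agent.Lib.FW.A.BPr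
import Pool.Agent.Lib.FW.A.BGen
import Pool.Agent.Lib.FW.A.BIdx
import Pool.Agent.Lib.FW.A.BDeg
import Pool.Agent.Lib.FW.A.BCrt

/-!
# FW, parts A and B: Stickelberger's theorem, assembled
-/

noncomputable section

namespace Pool.Agent.FW

/-- **Stickelberger's theorem** for the cyclotomic fields inside `Om` (parts A, B, ST). -/
theorem stOK : S_ST :=
  tST tCyK tOId
    (tSTK tAPi
      (tADeg (tAJac (tAChi tAZeta) (tAMem tASum) (tASplit tAZeta) tASqf))
      (tBAll (tBPr tBGen tBIdx tBDeg tBCrt)))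

end Pool.Agent.FW
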