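import Pool.Agent.Lib.FW.SpecA

open scoped Pointwise NumberField

noncomputable section

namespace Pool.Agent.FW

open Pool.Agent.MuZ

/-- A prime number in a prime ideal which contains a nonzero natural number. -/
private theorem BPr_prime_aux {K : Type} [Field K] [NumberField K] (P : Ideal (𝓞 K))
    (hP : P.IsPrime) : ∀ n : ℕ, n ≠ 0 → (n : 𝓞 K) ∈ P → ∃ l : ℕ, l.Prime ∧ (l : 𝓞 K) ∈ P := by
  intro n
  induction n using Nat.strong_induction_on with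
  | _ n ih =>
    intro hn hnP
    have hn1 : n ≠ 1 := by
      rintro rfl
      exact hP.ne_top ((Ideal.eq_top_iff_one P).2 (by simpa using hnP))
    obtain ⟨q, hq, k, rfl⟩ := Nat.exists_prime_and_dvd hn1
    rw [Nat.cast_mul] at hnP
    rcases hP.mem_or_mem hnP with h | h
    · exact ⟨q, hq, h⟩
    · have hk : k ≠ 0 := right_ne_zero_of_mul hn
      exact ih k (lt_mul_of_one_lt_left (Nat.pos_of_ne_zero hk) hq.one_lt) hk h

/-- A prime number in a nonzero prime ideal. -/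
private theorem BPr_prime {K : Type} [Field K] [NumberField K] (P : Ideal (𝓞 K)) (hP : P.IsPrime)
    (hb : P ≠ ⊥) : ∃ l : ℕ, l.Prime ∧ (l : 𝓞 K) ∈ P :=
  BPr_prime_aux P hP _ (fun h => hb (Ideal.absNorm_eq_zero_iff.1 h)) (Ideal.absNorm_mem P)

/-- Two coprime natural numbers are not in the same prime ideal. -/
private theorem BPr_cop {K : Type} [Field K] [NumberField K] (P : Ideal (𝓞 K)) (hP : P.IsPrime)
    {y l : ℕ} (hl : l.Prime) (hly : ¬ l ∣ y) (hlP : (l : 𝓞 K) ∈ P) : (y : 𝓞 K) ∉ P := by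
  intro hy
  obtain ⟨c, d, hcd⟩ : IsCoprime (y : ℤ) (l : ℤ) :=
    Nat.isCoprime_iff_coprime.2 ((Nat.Prime.coprime_iff_not_dvd hl).2 hly).symm
  have h' : (c : 𝓞 K) * (y : 𝓞 K) + (d : 𝓞 K) * (l : 𝓞 K) = 1 := by
    exact_mod_cast congrArg (Int.cast : ℤ → 𝓞 K) hcd
  refine hP.ne_top ((Ideal.eq_top_iff_one P).2 ?_)
  rw [← h']
  exact P.add_mem (P.mul_mem_left _ hy) (P.mul_mem_left _ hlP)

/-- If `y b ∈ I` and `l b ∈ I` with `y`, `l` coprime, then `b ∈ I`. -/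
private theorem BPr_bez {K : Type} [Field K] [NumberField K] (I : Ideal (𝓞 K))
    {y l : ℕ} (hl : l.Prime) (hly : ¬ l ∣ y) {b : 𝓞 K} (h1 : (y : 𝓞 K) * b ∈ I)
    (h2 : (l : 𝓞 K) * b ∈ I) : b ∈ I := by
  obtain ⟨c, d, hcd⟩ : IsCoprime (y : ℤ) (l : ℤ) :=
    Nat.isCoprime_iff_coprime.2 ((Nat.Prime.coprime_iff_not_dvd hl).2 hly).symm
  have h' : (c : 𝓞 K) * (y : 𝓞 K) + (d : 𝓞 K) * (l : 𝓞 K) = 1 := by
    exact_mod_cast congrArg (Int.cast : ℤ → 𝓞 K) hcd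
  have h3 : b = (c : 𝓞 K) * ((y : 𝓞 K) * b) + (d : 𝓞 K) * ((l : 𝓞 K) * b) := by
    linear_combination (-b) * h'
  rw [h3]
  exact I.add_mem (I.mul_mem_left _ h1) (I.mul_mem_left _ h2)

theorem tBPr (h1 : S_BGen) (h2 : S_BIdx) (h3 : S_BDeg) (h4 : S_BCrt) : S_BPr := by
  intro K _ _ N0 hN0 P hP hPb
  obtain ⟨l, hl, hlP⟩ := BPr_prime P hP hPb
  obtain ⟨b0, hb0, hb02, hb0'⟩ := h4 K P l hP hl hlP
  obtain ⟨z, hz⟩ := h1 K b0 (l ^ 2) (pow_ne_zero 2 hl.ne_zero)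
  generalize hbdef : b0 + ((l ^ 2 : ℕ) : 𝓞 K) * z = b at hz
  have hl2 : ((l ^ 2 : ℕ) : 𝓞 K) ∈ P ^ 2 := by
    rw [Nat.cast_pow]
    exact Ideal.pow_mem_pow hlP 2
  have hP2 : P ^ 2 ≤ P := Ideal.pow_le_self two_ne_zero
  have hb : b ∈ P := by
    rw [← hbdef]
    exact P.add_mem hb0 (P.mul_mem_right _ (hP2 hl2))
  have hb2 : b ∉ P ^ 2 := by
    rw [← hbdef]
    intro h
    exact hb02 (((P ^ 2).add_mem_iff_left ((P ^ 2).mul_mem_right _ hl2)).1 h)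
  have hb' : ∀ P' : Ideal (𝓞 K), P'.IsPrime → (l : 𝓞 K) ∈ P' → P' ≠ P → b ∉ P' := by
    intro P' hp' hl' hne h
    rw [← hbdef] at h
    refine hb0' P' hp' hl' hne ((P'.add_mem_iff_left (P'.mul_mem_right _ ?_)).1 h)
    rw [Nat.cast_pow]
    exact P'.pow_mem_of_mem hl' 2 (by norm_num)
  clear hbdef hb0 hb02 hb0'
  obtain ⟨N, hN, hNz⟩ := h2 K b hz
  obtain ⟨u, N1, hN1, hNu⟩ := Nat.exists_eq_pow_mul_and_not_dvd hN l hl.ne_one
  obtain ⟨v, N2, hN2, hNv⟩ := Nat.exists_eq_pow_mul_and_not_dvd hN0 l hl.ne_one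
  obtain ⟨y, hy⟩ : ∃ y, y = N1 * N2 := ⟨_, rfl⟩
  have hly : ¬ l ∣ y := by
    rw [hy]
    exact fun h => (hl.dvd_mul.1 h).elim hN1 hN2
  obtain ⟨α, hα⟩ : ∃ α : 𝓞 K, α = ((l ^ 2 : ℕ) : 𝓞 K) + (y : 𝓞 K) * b := ⟨_, rfl⟩
  have hαP : α ∈ P := by
    rw [hα]
    exact P.add_mem (hP2 hl2) (P.mul_mem_left _ hb)
  have hα2 : α ∉ P ^ 2 := by
    intro h
    rw [hα] at h
    have hyb : (y : 𝓞 K) * b ∈ P ^ 2 := ((P ^ 2).add_mem_iff_right hl2).1 h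
    have hlb : (l : 𝓞 K) * b ∈ P ^ 2 := by
      rw [sq]
      exact Ideal.mul_mem_mul hlP hb
    exact hb2 (BPr_bez (P ^ 2) hl hly hyb hlb)
  have hα0 : α ≠ 0 := fun h => hα2 (h ▸ (P ^ 2).zero_mem)
  have hα' : ∀ P' : Ideal (𝓞 K), P'.IsPrime → (l : 𝓞 K) ∈ P' → P' ≠ P → α ∉ P' := by
    intro P' hp' hl' hne h
    have hl2' : ((l ^ 2 : ℕ) : 𝓞 K) ∈ P' := by
      rw [Nat.cast_pow]
      exact P'.pow_mem_of_mem hl' 2 (by norm_num)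
    rw [hα] at h
    rcases hp'.mem_or_mem ((P'.add_mem_iff_right hl2').1 h) with h5 | h5
    · exact BPr_cop P' hp' hl hly hl' h5
    · exact hb' P' hp' hl' hne h5
  obtain ⟨J, hJ⟩ : P ∣ Ideal.span {α} := Ideal.dvd_span_singleton.2 hαP
  refine ⟨α, J, hα0, hJ, ?_⟩
  intro Q hQ hQJ
  have hαQ : α ∈ Q := by
    have h5 : Q ∣ Ideal.span {α} := hJ ▸ hQJ.mul_left P
    exact Ideal.dvd_span_singleton.1 h5
  have hQP : Q ≠ P := by
    intro h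
    refine hα2 (Ideal.dvd_span_singleton.1 ?_)
    rw [hJ, sq]
    exact mul_dvd_mul_left P (h ▸ hQJ)
  have hQb : Q ≠ ⊥ := by
    intro h
    rw [h, Ideal.mem_bot] at hαQ
    exact hα0 hαQ
  have hlQ : (l : 𝓞 K) ∉ Q := fun h => hα' Q hQ h hQP hαQ
  obtain ⟨r, hr, hrQ⟩ := BPr_prime Q hQ hQb
  have hrl : ¬ r ∣ l := by
    intro h
    rw [(Nat.prime_dvd_prime_iff_eq hr hl).1 h] at hrQ
    exact hlQ hrQ
  have hry : ¬ r ∣ y := by
    rintro ⟨t, ht⟩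
    have hyQ : (y : 𝓞 K) ∈ Q := by
      rw [ht, Nat.cast_mul]
      exact Q.mul_mem_right _ hrQ
    rw [hα] at hαQ
    have h5 := (Q.add_mem_iff_left (Q.mul_mem_right b hyQ)).1 hαQ
    rw [Nat.cast_pow] at h5
    exact hlQ (hQ.mem_of_pow_mem 2 h5)
  have hr1 : ¬ r ∣ N1 := fun h => hry (hy ▸ h.mul_right N2)
  have hr2 : ¬ r ∣ N2 := fun h => hry (hy ▸ h.mul_left N1)
  have hrN : ¬ r ∣ N := by
    intro h
    rw [hNu] at h
    rcases hr.dvd_mul.1 h with h5 | h5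
    · exact hrl (hr.dvd_of_dvd_pow h5)
    · exact hr1 h5
  have hrN0 : ¬ r ∣ N0 := by
    intro h
    rw [hNv] at h
    rcases hr.dvd_mul.1 h with h5 | h5
    · exact hrl (hr.dvd_of_dvd_pow h5)
    · exact hr2 h5
  have h6 : Ideal.absNorm Q = r := by
    refine h3 K b N hNz Q r y ((l ^ 2 : ℕ) : ℤ) hQ hr hrQ hrN hry ?_
    rw [Int.cast_natCast, ← hα]
    exact hαQ
  rw [h6]
  exact ⟨hr, hrN0⟩

end Pool.Agent.FW
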