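import Pool.Agent.Lib.FW.SpecA

/-!
FW/A, module ST (helper32): the theorem of Stickelberger inside `Om`.
-/

open scoped Pointwise NumberField

noncomputable section

namespace Pool.Agent.FW

open Pool.Agent.MuZ

private theorem st_inc (m : ℕ) (σ : Gal(Om/ℚ)) (y : 𝓞 (Cy m)) :
    inc (Cy m) ((rst m σ)⁻¹ • y) = σ⁻¹ • inc (Cy m) y := by
  apply Subtype.ext
  rfl

private theorem st_map (m : ℕ) (σ : Gal(Om/ℚ)) (I : Ideal (𝓞 (Cy m))) (b : ZZ)
    (h : I.map (inc (Cy m)) = Ideal.span {b}) :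
    ((rst m σ)⁻¹ • I).map (inc (Cy m)) = Ideal.span {σ⁻¹ • b} := by
  rw [Ideal.pointwise_smul_def, Ideal.map_map]
  have h1 : (inc (Cy m)).comp (MulSemiringAction.toRingHom (RingAut (Cy m)) (𝓞 (Cy m)) (rst m σ)⁻¹) =
      (MulSemiringAction.toRingHom Gal(Om/ℚ) ZZ σ⁻¹).comp (inc (Cy m)) :=
    RingHom.ext fun y => st_inc m σ y
  rw [h1, ← Ideal.map_map, h, Ideal.map_span, Set.image_singleton]
  rfl

private theorem isUn_unit (u : ZZˣ) : IsUn ((u : ZZ) : Om) := by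
  have h1 : ((u : ZZ) : Om) * (((u⁻¹ : ZZˣ) : ZZ) : Om) = 1 := by
    rw [← MulMemClass.coe_mul, Units.mul_inv]
    rfl
  have h0 : ((u : ZZ) : Om) ≠ 0 := left_ne_zero_of_mul_eq_one h1
  refine ⟨h0, (u : ZZ).2, ?_⟩
  rw [inv_eq_of_mul_eq_one_right h1]
  exact ((u⁻¹ : ZZˣ) : ZZ).2

theorem tST (h1 : S_CyK) (h2 : S_OId) (h3 : S_STK) : S_ST := by
  intro m c hc hcm σ hσ β hβ
  obtain ⟨hN, hK⟩ := h1 m (by omega)
  obtain ⟨d, I, b, hd, hI, hb, hmap⟩ := h2 (Cy m) β hβ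
  have hfam : IsFamK (Cy m) m (fun a => rst m (σ a)) := by
    intro a ha z hz
    apply Subtype.ext
    have h4 := hσ a ha (z : Om) (by rw [← SubmonoidClass.coe_pow, hz]; rfl)
    exact h4
  obtain ⟨x, hx0, hx⟩ := h3 (Cy m) m c hK (by omega) hcm (fun a => rst m (σ a)) hfam I hI
  have h5 : (St m (fun a => c * a / m) (fun a => rst m (σ a)) I).map (inc (Cy m)) =
      Ideal.span {∏ a ∈ Un m, ((σ a)⁻¹ • b) ^ (c * a / m)} := by
    unfold St
    rw [← Ideal.prod_span_singleton]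
    change Ideal.mapHom (inc (Cy m)) _ = _
    rw [map_prod]
    refine Finset.prod_congr rfl fun a _ => ?_
    rw [map_pow]
    change ((rst m (σ a))⁻¹ • I).map (inc (Cy m)) ^ (c * a / m) = _
    rw [st_map m (σ a) I b hmap, Ideal.span_singleton_pow]
  rw [hx, Ideal.map_span, Set.image_singleton, Ideal.span_singleton_eq_span_singleton] at h5
  obtain ⟨u, hu⟩ := h5
  have h6 := congrArg (fun t : ZZ => (t : Om)) hu
  have h7 : ((∏ a ∈ Un m, ((σ a)⁻¹ • b) ^ (c * a / m) : ZZ) : Om) =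
      (d : Om) ^ (∑ a ∈ Un m, c * a / m) * ∏ a ∈ Un m, ((σ a)⁻¹ β) ^ (c * a / m) := by
    rw [← Finset.prod_pow_eq_pow_sum, ← Finset.prod_mul_distrib]
    change (integralClosure ℤ Om).val (∏ a ∈ Un m, ((σ a)⁻¹ • b) ^ (c * a / m)) = _
    rw [map_prod]
    refine Finset.prod_congr rfl fun a _ => ?_
    rw [map_pow]
    change ((σ a)⁻¹ (b : Om)) ^ (c * a / m) = _
    rw [hb, map_mul, map_natCast, mul_pow]
  change ((inc (Cy m) x : ZZ) : Om) * ((u : ZZ) : Om) = _ at h6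
  rw [h7, inc_coe] at h6
  have hd0 : (d : Om) ^ (∑ a ∈ Un m, c * a / m) ≠ 0 := pow_ne_zero _ (Nat.cast_ne_zero.2 hd)
  have hx1 : ((x : Cy m) : Om) ≠ 0 := by
    intro h
    apply hx0
    apply NumberField.RingOfIntegers.ext
    exact Subtype.ext h
  refine ⟨((x : Cy m) : Om) * ((d : Om) ^ (∑ a ∈ Un m, c * a / m))⁻¹, ?_, ((u : ZZ) : Om), ?_,
    isUn_unit u, ?_⟩
  · exact mul_mem (x : Cy m).2 (inv_mem (pow_mem (natCast_mem _ d) _))
  · exact mul_ne_zero hx1 (inv_ne_zero hd0)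
  · have h8 := h6
    field_simp
    rw [mul_comm _ ((d : Om) ^ (∑ a ∈ Un m, c * a / m)), ← h8]

end Pool.Agent.FW
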